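import Pool.Agent.H126R2.CDC.Main

set_option autoImplicit false

/-!
# No smallest counterexample to the circuit double cover conjecture has a cyclic 4-edge-cut

Graphs (`MGraph V E` with finite `V` and `E`) may have loops and parallel edges; `IsCircuit`,
`Bridgeless` and `IsCDC` are the notions of the problem (circuits are given by their edge sets).

The circuit double cover theorem `MGraph.exists_cdc` (every bridgeless graph has a circuit double
cover) says that there is no counterexample at all, so the question is settled in the way which
the problem file foresees.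
-/

namespace Pool.Agent.Results.MP_b1bfa0_co.NoCyclicFourCut

open Finset
open Pool.Agent.H126R2.CDC

section

variable {V E : Type} [Fintype V] [DecidableEq V] [Fintype E] [DecidableEq E]

/-- A counterexample: a bridgeless graph without a circuit double cover. -/
def IsCounterexample (G : MGraph V E) : Prop :=
  G.Bridgeless ∧ ¬ ∃ F : Multiset (Finset E), G.IsCDC F

/-- The edge-cut of `X`: the edges with exactly one end in `X`. -/
def cut (G : MGraph V E) (X : Finset V) : Finset E :=
  univ.filter fun e => (∃ x ∈ G.ends e, x ∈ X) ∧ ∃ y ∈ G.ends e, y ∉ X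

/-- The vertices `u` and `v` lie in the same component of `G - T`. -/
def Joined (G : MGraph V E) (T : Finset E) (u v : V) : Prop :=
  Relation.ReflTransGen (fun a b => ∃ e, e ∉ T ∧ G.ends e = s(a, b)) u v

/-- `T` is cyclic: at least two components of `G - T` contain a circuit. -/
def IsCyclicCut (G : MGraph V E) (T : Finset E) : Prop :=
  ∃ C D : Finset E, G.IsCircuit C ∧ G.IsCircuit D ∧ Disjoint C T ∧ Disjoint D T ∧
    ∃ u v : V, (∃ e ∈ C, u ∈ G.ends e) ∧ (∃ e ∈ D, v ∈ G.ends e) ∧ ¬ Joined G T u v

end

/-- A smallest counterexample: `|V| + |E|` is smallest among all counterexamples. -/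
def IsSmallestCounterexample {V E : Type} [Fintype V] [DecidableEq V] [Fintype E] [DecidableEq E]
    (G : MGraph V E) : Prop :=
  IsCounterexample G ∧
    ∀ (V' E' : Type) [Fintype V'] [DecidableEq V'] [Fintype E'] [DecidableEq E']
      (G' : MGraph V' E'), IsCounterexample G' →
        Fintype.card V + Fintype.card E ≤ Fintype.card V' + Fintype.card E'

/-- No smallest counterexample to the circuit double cover conjecture has an edge-cut which is
cyclic and consists of exactly four edges; indeed every bridgeless graph has a circuit double
cover. -/
theorem result :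
    (∀ (V E : Type) [Fintype V] [DecidableEq V] [Fintype E] [DecidableEq E] (G : MGraph V E),
      IsSmallestCounterexample G →
        ¬ ∃ X : Finset V, X.Nonempty ∧ X ≠ univ ∧ (cut G X).card = 4 ∧
          IsCyclicCut G (cut G X)) ∧
    (∀ (V E : Type) [Fintype V] [DecidableEq V] [Fintype E] [DecidableEq E] (G : MGraph V E),
      G.Bridgeless → ∃ F : Multiset (Finset E), G.IsCDC F) := by
  have h : ∀ (V E : Type) [Fintype V] [DecidableEq V] [Fintype E] [DecidableEq E]
      (G : MGraph V E), G.Bridgeless → ∃ F : Multiset (Finset E), G.IsCDC F :=
    fun V E _ _ _ _ G hG => G.exists_cdc hG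
  exact ⟨fun V E _ _ _ _ G hG _ => hG.1.2 (h V E G hG.1.1), h⟩

end Pool.Agent.Results.MP_b1bfa0_co.NoCyclicFourCut
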